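import Mathlib.Combinatorics.Compactness
import Pool.Agent.Helper67.BEA.Sel

/-!
Assignments of variables to polymorphisms which respect coincidences of minors on a set `S`, in
classes and up to several candidates; they give a single variable for each polymorphism which
respects all coincidences of minors on a (maybe larger) set.
-/

set_option autoImplicit false

namespace Pool.Agent.Helper67.LCC

open Set Function Pool.Agent.W994.AR Pool.Agent.Q112.BP Pool.Agent.Helper67.BEA

variable {A ι : Type} {ar : ι → ℕ}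

/-- the polymorphisms of `𝔸` with at least one variable -/
structure Pl (𝔸 : Str ι ar A) where
  n : ℕ
  pos : 0 < n
  f : (Fin n → A) → A
  pol : PolA 𝔸 f

variable {𝔸 : Str ι ar A}

/-- The minor of `a` given by `π` agrees on `S` with the minor of `b` given by `π'`. -/
def Eqv (S : Set A) {V : Type} (a b : Pl 𝔸) (π : Fin a.n → V) (π' : Fin b.n → V) : Prop :=
  ∀ x : V → A, (∀ v, x v ∈ S) → a.f (x ∘ π) = b.f (x ∘ π')

theorem Eqv.map {S : Set A} {V W : Type} {a b : Pl 𝔸} {π : Fin a.n → V} {π' : Fin b.n → V}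
    (h : Eqv S a b π π') (e : V → W) : Eqv S a b (e ∘ π) (e ∘ π') :=
  fun x hx => h (x ∘ e) (fun v => hx (e v))

theorem Eqv.mono {S S' : Set A} (hS : S' ⊆ S) {V : Type} {a b : Pl 𝔸} {π : Fin a.n → V}
    {π' : Fin b.n → V} (h : Eqv S a b π π') : Eqv S' a b π π' :=
  fun x hx => h x (fun v => hS (hx v))

/-- star composition -/
def Pl.star (m a : Pl 𝔸) : Pl 𝔸 where
  n := m.n * a.n
  pos := Nat.mul_pos m.pos a.pos
  f := fun x => m.f (fun p => a.f (fun q => x (finProdFinEquiv (p, q))))
  pol := fun i v hv => m.pol i (fun p j => a.f (fun q => v (finProdFinEquiv (p, q)) j))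
    (fun _ => a.pol i _ (fun _ => hv _))

/-- the first coordinate of a variable of the star composition -/
def p1 {m a : Pl 𝔸} (v : Fin (m.star a).n) : Fin m.n := (finProdFinEquiv.symm v).1

/-- the second coordinate of a variable of the star composition -/
def p2 {m a : Pl 𝔸} (v : Fin (m.star a).n) : Fin a.n := (finProdFinEquiv.symm v).2

theorem p_bij {m a : Pl 𝔸} :
    Bijective (fun v : Fin (m.star a).n => ((p1 v, p2 v) : Fin m.n × Fin a.n)) :=
  finProdFinEquiv.symm.bijective

/-- the values of the functions of `t` on `S` -/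
def img (t : Finset (Pl 𝔸)) (S : Set A) : Set A :=
  {y | ∃ a ∈ t, ∃ x : Fin a.n → A, (∀ i, x i ∈ S) ∧ y = a.f x}

theorem img_finite (t : Finset (Pl 𝔸)) {S : Set A} (hS : S.Finite) : (img t S).Finite := by
  have h1 : img t S ⊆ ⋃ a ∈ t, a.f '' {x : Fin a.n → A | ∀ i, x i ∈ S} := by
    rintro y ⟨a, ha, x, hx, rfl⟩
    exact Set.mem_biUnion ha ⟨x, hx, rfl⟩
  refine Set.Finite.subset (Set.Finite.biUnion t.finite_toSet fun a _ => Set.Finite.image _ ?_) h1
  have : {x : Fin a.n → A | ∀ i, x i ∈ S} = Set.pi univ fun _ => S := by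
    ext x
    simp
  rw [this]
  exact Set.Finite.pi fun _ => hS

theorem Eqv.star {S : Set A} {t : Finset (Pl 𝔸)} {m m' a a' : Pl 𝔸} (ha : a ∈ t) {V W : Type}
    {π : Fin m.n → V} {π' : Fin m'.n → V} {ρ : Fin a.n → W} {ρ' : Fin a'.n → W}
    (h : Eqv (img t S) m m' π π') (h' : Eqv S a a' ρ ρ') :
    Eqv S (m.star a) (m'.star a') (fun v => (π (p1 v), ρ (p2 v))) (fun v => (π' (p1 v), ρ' (p2 v))) := by
  intro x hx
  have h1 : ∀ v : V, a.f (fun q => x (v, ρ q)) = a'.f (fun q => x (v, ρ' q)) :=
    fun v => h' (fun w => x (v, w)) (fun w => hx _)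
  have h2 := h (fun v => a.f (fun q => x (v, ρ q))) (fun v => ⟨a, ha, _, fun i => hx _, rfl⟩)
  show m.f (fun p => a.f (fun q => x (π (finProdFinEquiv.symm (finProdFinEquiv (p, q))).1,
    ρ (finProdFinEquiv.symm (finProdFinEquiv (p, q))).2))) = m'.f (fun p => a'.f (fun q =>
      x (π' (finProdFinEquiv.symm (finProdFinEquiv (p, q))).1,
        ρ' (finProdFinEquiv.symm (finProdFinEquiv (p, q))).2)))
  simp only [Equiv.symm_apply_apply]
  calc m.f (fun p => a.f (fun q => x (π p, ρ q)))
      = m'.f (fun p => a.f (fun q => x (π' p, ρ q))) := h2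
    _ = m'.f (fun p => a'.f (fun q => x (π' p, ρ' q))) := by
        congr 1
        funext p
        exact h1 (π' p)

/-- the diagonal of `a` on `S` -/
def dg (S : Set A) (a : Pl 𝔸) : S → A := fun s => a.f (fun _ => s)

theorem Eqv.dg {S : Set A} {V : Type} {a b : Pl 𝔸} {π : Fin a.n → V} {π' : Fin b.n → V}
    (h : Eqv S a b π π') : dg S a = dg S b :=
  funext fun s => h (fun _ => s) (fun _ => s.2)

/-- compositions with inner functions with the same diagonal -/
theorem Eqv.star_dg {S : Set A} {t : Finset (Pl 𝔸)} {m m' a a' : Pl 𝔸} (ha : a ∈ t) {V : Type}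
    {π : Fin m.n → V} {π' : Fin m'.n → V} (h : Eqv (img t S) m m' π π')
    (hd : LCC.dg S a = LCC.dg S a') :
    Eqv S (m.star a) (m'.star a') (fun v => π (p1 v)) (fun v => π' (p1 v)) := by
  have h' : Eqv S a a' (fun _ => ()) (fun _ => ()) := by
    intro x hx
    have := congrFun hd ⟨x (), hx ()⟩
    exact this
  exact (h.star ha h').map Prod.fst

/-- A variable for each polymorphism which respects all coincidences of minors on `S`. -/
def HasJ (𝔸 : Str ι ar A) (S : Set A) : Prop :=
  ∃ J : (a : Pl 𝔸) → Fin a.n, ∀ (a b : Pl 𝔸) (V : Type) (π : Fin a.n → V) (π' : Fin b.n → V),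
    Eqv S a b π π' → π (J a) = π' (J b)

/-- A class `c a` and a variable `J a` for each polymorphism, such that coincidences of minors on
`S` are respected inside of the classes; only coincidences of functions with minors of functions if
`bij` is true. -/
def Part (𝔸 : Str ι ar A) (bij : Prop) (S : Set A) (C : Type) : Prop :=
  ∃ (c : Pl 𝔸 → C) (J : (a : Pl 𝔸) → Fin a.n), ∀ (a b : Pl 𝔸) (V : Type) (π : Fin a.n → V)
    (π' : Fin b.n → V), (bij → Bijective π') → Eqv S a b π π' → c a = c b → π (J a) = π' (J b)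

/-- Classes and `k` candidates for each side. -/
def HasG (𝔸 : Str ι ar A) (bij : Prop) (S : Set A) (C : Type) (k : ℕ) : Prop :=
  ∃ (c : Pl 𝔸 → C) (G H : (a : Pl 𝔸) → Fin k → Fin a.n), ∀ (a b : Pl 𝔸) (V : Type)
    (π : Fin a.n → V) (π' : Fin b.n → V), (bij → Bijective π') → Eqv S a b π π' → c a = c b →
    ∃ i, π (G a i) = π' (H b i)

/-- The same for minors by maps which are injective on a set of at most `B` variables. -/
def HasB (𝔸 : Str ι ar A) (S : Set A) (C : Type) (k B : ℕ) : Prop :=
  ∃ (c : Pl 𝔸 → C) (G H : (a : Pl 𝔸) → Fin k → Fin a.n) (E : (a : Pl 𝔸) → Finset (Fin a.n)),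
    (∀ a, (E a).card ≤ B) ∧ ∀ (a b : Pl 𝔸) (V : Type)
    (π : Fin a.n → V) (π' : Fin b.n → V), Bijective π' → Eqv S a b π π' → c a = c b →
    Set.InjOn π (E a) → ∃ i, π (G a i) = π' (H b i)

theorem compact {X : Type} {β : X → Type} [∀ x, Finite (β x)] (R : ∀ x y, β x → β y → Prop)
    (h : ∀ t : Finset X, ∃ g : ∀ x, β x, ∀ x ∈ t, ∀ y ∈ t, R x y (g x) (g y)) :
    ∃ g : ∀ x, β x, ∀ x y, R x y (g x) (g y) := by
  classical
  choose g hg using h
  obtain ⟨χ, hχ⟩ := Finset.rado_selection (β := β) g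
  refine ⟨χ, fun x y => ?_⟩
  obtain ⟨t, hst, ht⟩ := hχ {x, y}
  rw [ht x (by simp), ht y (by simp)]
  exact hg t x (hst (by simp)) y (hst (by simp))

/-- the projection with one variable -/
def unit (𝔸 : Str ι ar A) : Pl 𝔸 := ⟨1, Nat.one_pos, fun x => x 0, fun _ _ hv => hv 0⟩

theorem HasG.part {bij : Prop} {S : Set A} {C : Type} (h : HasG 𝔸 bij S C 1) : Part 𝔸 bij S C := by
  obtain ⟨c, G, H, h⟩ := h
  have hGH : ∀ a, G a 0 = H a 0 := by
    intro a
    obtain ⟨i, hi⟩ := h a a (Fin a.n) id id (fun _ => bijective_id) (fun _ _ => rfl) rfl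
    rw [Subsingleton.elim i 0] at hi
    exact hi
  refine ⟨c, fun a => G a 0, fun a b V π π' hb he hc => ?_⟩
  obtain ⟨i, hi⟩ := h a b V π π' hb he hc
  rw [Subsingleton.elim i 0] at hi
  rw [hi, ← hGH b]

section steps

variable {Adm : Set A → Prop} (hA : ∀ (t : Finset (Pl 𝔸)) (S : Set A), Adm S → Adm (img t S))

include hA

/-- removing the condition of injectivity -/
theorem stepB {k : ℕ} : ∀ (B : ℕ), (∃ (S : Set A) (C : Type), Adm S ∧ Finite C ∧ HasB 𝔸 S C k B) →
    ∃ (S : Set A) (C : Type), Adm S ∧ Finite C ∧ HasG 𝔸 True S C k := by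
  classical
  intro B
  induction B with
  | zero =>
    rintro ⟨S, C, hS, hC, c, G, H, E, hE, h⟩
    refine ⟨S, C, hS, hC, c, G, H, fun a b V π π' hb he hc => ?_⟩
    refine h a b V π π' (hb trivial) he hc ?_
    have : E a = ∅ := Finset.card_eq_zero.1 (Nat.le_zero.1 (hE a))
    rw [this]
    simp
  | succ B ih =>
    rintro ⟨S, C, hS, hC, c, G, H, E, hE, h⟩
    by_cases hB : ∃ (S : Set A) (C : Type), Adm S ∧ Finite C ∧ HasB 𝔸 S C k B
    · exact ih hB
    refine ⟨S, C, hS, hC, ?_⟩
    -- finite sets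
    have hfin : ∀ t : Finset (Pl 𝔸), ∃ g : (a : Pl 𝔸) → C × (Fin k → Fin a.n) × (Fin k → Fin a.n),
        ∀ a ∈ t, ∀ b ∈ t, ∀ (V : Type) (π : Fin a.n → V) (π' : Fin b.n → V),
          Bijective π' → Eqv S a b π π' → (g a).1 = (g b).1 →
          ∃ i, π ((g a).2.1 i) = π' ((g b).2.2 i) := by
      intro t
      obtain ⟨m, hm⟩ : ∃ m : Pl 𝔸, ∀ a ∈ t, Set.InjOn (p1 (m := m) (a := a)) (E (m.star a)) := by
        by_contra hno
        push Not at hno
        choose F hFt hF using hno
        apply hB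
        refine ⟨img t S, {a // a ∈ t} × C, hA t S hS, inferInstance,
          fun m => (⟨F m, hFt m⟩, c (m.star (F m))), fun m i => p1 (G (m.star (F m)) i),
          fun m i => p1 (H (m.star (F m)) i), fun m => (E (m.star (F m))).image p1, ?_, ?_⟩
        · intro m
          have h1 : ((E (m.star (F m))).image (p1 (m := m) (a := F m))).card <
              (E (m.star (F m))).card := by
            refine lt_of_le_of_ne Finset.card_image_le fun h2 => ?_
            exact hF m (Finset.card_image_iff.1 h2)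
          have h2 := hE (m.star (F m))
          show ((E (m.star (F m))).image (p1 (m := m) (a := F m))).card ≤ B
          omega
        · intro m m' V π π' hb he hc hinj
          have key : ∀ a a' : Pl 𝔸, a = a' → a ∈ t → c (m.star a) = c (m'.star a') →
              Set.InjOn π (↑((E (m.star a)).image p1) : Set (Fin m.n)) →
              ∃ i, π (p1 (G (m.star a) i)) = π' (p1 (H (m'.star a') i)) := by
            rintro a _ rfl hat hc hinj
            have he' := he.star hat (a' := a) (ρ := id) (ρ' := id) (fun _ _ => rfl)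
            have hb' : Bijective (fun v : Fin (m'.star a).n => (π' (p1 v), id (p2 v))) :=
              (Function.Bijective.prodMap hb bijective_id).comp p_bij
            have hi' : Set.InjOn (fun v : Fin (m.star a).n => (π (p1 v), id (p2 v)))
                (E (m.star a)) := by
              intro v hv w hw hvw
              have h3 := Prod.ext_iff.1 hvw
              have h4 : p1 v = p1 w := hinj (Finset.mem_coe.2 (Finset.mem_image_of_mem _ hv))
                (Finset.mem_coe.2 (Finset.mem_image_of_mem _ hw)) h3.1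
              have h5 : p2 v = p2 w := h3.2
              exact p_bij.1 (Prod.ext h4 h5)
            obtain ⟨i, hi⟩ := h (m.star a) (m'.star a) (V × Fin a.n) _ _ hb' he' hc hi'
            exact ⟨i, (Prod.ext_iff.1 hi).1⟩
          have h1 := Prod.ext_iff.1 hc
          exact key (F m) (F m') (congrArg Subtype.val h1.1) (hFt m) h1.2 hinj
      refine ⟨fun a => (c (m.star a), fun i => p2 (G (m.star a) i), fun i => p2 (H (m.star a) i)),
        fun a ha b hb V π π' hbij he hc => ?_⟩
      have he' := Eqv.star ha (m := m) (m' := m) (π := id) (π' := id) (S := S) (t := t)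
        (fun _ _ => rfl) he
      have hb' : Bijective (fun v : Fin (m.star b).n => (id (p1 v), π' (p2 v))) :=
        (Function.Bijective.prodMap bijective_id hbij).comp p_bij
      have hi' : Set.InjOn (fun v : Fin (m.star a).n => (id (p1 v), π (p2 v)))
          (E (m.star a)) := by
        intro v hv w hw hvw
        exact hm a ha hv hw (Prod.ext_iff.1 hvw).1
      obtain ⟨i, hi⟩ := h (m.star a) (m.star b) (Fin m.n × V) _ _ hb' he' hc hi'
      exact ⟨i, (Prod.ext_iff.1 hi).2⟩
    obtain ⟨g, hg⟩ := compact (X := Pl 𝔸)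
      (β := fun a => C × (Fin k → Fin a.n) × (Fin k → Fin a.n))
      (fun a b u v => ∀ (V : Type) (π : Fin a.n → V) (π' : Fin b.n → V),
          Bijective π' → Eqv S a b π π' → u.1 = v.1 → ∃ i, π (u.2.1 i) = π' (v.2.2 i)) hfin
    exact ⟨fun a => (g a).1, fun a => (g a).2.1, fun a => (g a).2.2,
      fun a b V π π' hb => hg a b V π π' (hb trivial)⟩

/-- one candidate instead of several -/
theorem step2 (bij : Prop) : ∀ (k : ℕ),
    (∃ (S : Set A) (C : Type), Adm S ∧ Finite C ∧ HasG 𝔸 bij S C k) →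
    ∃ (S : Set A) (C : Type), Adm S ∧ Finite C ∧ HasG 𝔸 bij S C 1 := by
  classical
  intro k
  induction k with
  | zero =>
    rintro ⟨S, C, hS, hC, c, G, H, h⟩
    obtain ⟨i, -⟩ := h (unit 𝔸) (unit 𝔸) _ id id (fun _ => bijective_id) (fun _ _ => rfl) rfl
    exact i.elim0
  | succ k ih =>
    rintro ⟨S, C, hS, hC, c, G, H, h⟩
    by_cases hk : ∃ (S : Set A) (C : Type), Adm S ∧ Finite C ∧ HasG 𝔸 bij S C k
    · exact ih hk
    refine ⟨S, C, hS, hC, ?_⟩
    have hfin : ∀ t : Finset (Pl 𝔸), ∃ g : (a : Pl 𝔸) → C × Fin a.n × Fin a.n,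
        ∀ a ∈ t, ∀ b ∈ t, ∀ (V : Type) (π : Fin a.n → V) (π' : Fin b.n → V),
          (bij → Bijective π') → Eqv S a b π π' → (g a).1 = (g b).1 →
          π ((g a).2.1) = π' ((g b).2.2) := by
      intro t
      obtain ⟨m, hm⟩ : ∃ m : Pl 𝔸, ∀ a ∈ t, ∀ b ∈ t, ∀ (V : Type) (π : Fin a.n → V)
          (π' : Fin b.n → V), (bij → Bijective π') → Eqv S a b π π' →
          c (m.star a) = c (m.star b) →
          ∀ i, π (p2 (G (m.star a) i)) = π' (p2 (H (m.star b) i)) := by
        by_contra hno
        push Not at hno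
        apply hk
        -- the classes
        let D : Type := Σ (a b : {a // a ∈ t}), Fin (k + 1) × C × (Fin (k + 1) → Fin a.1.n) ×
          (Fin (k + 1) → Fin b.1.n)
        let P : Pl 𝔸 → D → Prop := fun m d =>
          (∃ (V : Type) (ρ : Fin d.1.1.n → V) (ρ' : Fin d.2.1.1.n → V),
            (bij → Bijective ρ') ∧ Eqv S d.1.1 d.2.1.1 ρ ρ' ∧
            ρ (d.2.2.2.2.1 d.2.2.1) ≠ ρ' (d.2.2.2.2.2 d.2.2.1)) ∧
          c (m.star d.1.1) = d.2.2.2.1 ∧ c (m.star d.2.1.1) = d.2.2.2.1 ∧
          (∀ j, p2 (G (m.star d.1.1) j) = d.2.2.2.2.1 j) ∧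
          (∀ j, p2 (H (m.star d.2.1.1) j) = d.2.2.2.2.2 j)
        have hP : ∀ m, ∃ d, P m d := by
          intro m
          obtain ⟨a, ha, b, hb, V, π, π', h1, h2, h3, i, h4⟩ := hno m
          exact ⟨⟨⟨a, ha⟩, ⟨b, hb⟩, i, c (m.star a), fun j => p2 (G (m.star a) j),
            fun j => p2 (H (m.star b) j)⟩, ⟨V, π, π', h1, h2, h4⟩, rfl, h3.symm,
            fun _ => rfl, fun _ => rfl⟩
        choose d hd using hP
        have hD : Finite D := inferInstance
        refine ⟨img t S, D, hA t S hS, hD, d,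
          fun m j => p1 (G (m.star (d m).1.1) ((d m).2.2.1.succAbove j)),
          fun m j => p1 (H (m.star (d m).2.1.1) ((d m).2.2.1.succAbove j)), ?_⟩
        intro m m' V π π' hb he hc
        have key : ∀ e : D, P m e → P m' e →
            ∃ j, π (p1 (G (m.star e.1.1) (e.2.2.1.succAbove j))) =
              π' (p1 (H (m'.star e.2.1.1) (e.2.2.1.succAbove j))) := by
          rintro ⟨⟨a, ha⟩, ⟨b, hb'⟩, i, κ, g, h0⟩ ⟨⟨W, ρ, ρ', q1, q2, q3⟩, q4, q5, q6, q7⟩
            ⟨-, r4, r5, r6, r7⟩
          simp only at q1 q2 q3 q4 q5 q6 q7 r4 r5 r6 r7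
          have he' := he.star ha q2
          have hb'' : bij → Bijective (fun v : Fin (m'.star b).n => (π' (p1 v), ρ' (p2 v))) :=
            fun hbij => (Function.Bijective.prodMap (hb hbij) (q1 hbij)).comp p_bij
          obtain ⟨l, hl⟩ := h (m.star a) (m'.star b) (V × W) _ _ hb'' he' (q4.trans r5.symm)
          have hl1 := (Prod.ext_iff.1 hl).1
          have hl2 := (Prod.ext_iff.1 hl).2
          simp only at hl1 hl2
          rw [q6, r7] at hl2
          have hli : l ≠ i := by
            rintro rfl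
            exact q3 hl2
          obtain ⟨j, hj⟩ := Fin.exists_succAbove_eq hli
          refine ⟨j, ?_⟩
          simp only [hj]
          exact hl1
        have h1 : P m' (d m) := by
          have hc' : d m = d m' := hc
          rw [hc']
          exact hd m'
        have h2 := key (d m) (hd m) h1
        have hc' : d m = d m' := hc
        obtain ⟨j, hj⟩ := h2
        refine ⟨j, ?_⟩
        rw [hj, hc']
      refine ⟨fun a => (c (m.star a), p2 (G (m.star a) 0), p2 (H (m.star a) 0)),
        fun a ha b hb V π π' hbij he hc => ?_⟩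
      exact hm a ha b hb V π π' hbij he hc 0
    obtain ⟨g, hg⟩ := compact (X := Pl 𝔸) (β := fun a => C × Fin a.n × Fin a.n)
      (fun a b u v => ∀ (V : Type) (π : Fin a.n → V) (π' : Fin b.n → V),
          (bij → Bijective π') → Eqv S a b π π' → u.1 = v.1 → π u.2.1 = π' v.2.2) hfin
    exact ⟨fun a => (g a).1, fun a _ => (g a).2.1, fun a _ => (g a).2.2,
      fun a b V π π' hb he hc => ⟨0, hg a b V π π' hb he hc⟩⟩

/-- one class instead of several, all coincidences -/
theorem step1c : ∀ (r : ℕ), (∃ S : Set A, Adm S ∧ Part 𝔸 False S (Fin r)) →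
    ∃ S : Set A, Adm S ∧ HasJ 𝔸 S := by
  classical
  intro r
  induction r with
  | zero =>
    rintro ⟨S, hS, c, J, h⟩
    exact (c (unit 𝔸)).elim0
  | succ r ih =>
    rintro ⟨S, hS, c, J, h⟩
    by_cases hr : ∃ S : Set A, Adm S ∧ Part 𝔸 False S (Fin r)
    · exact ih hr
    refine ⟨S, hS, ?_⟩
    have hfin : ∀ t : Finset (Pl 𝔸), ∃ g : (a : Pl 𝔸) → Fin a.n,
        ∀ a ∈ t, ∀ b ∈ t, ∀ (V : Type) (π : Fin a.n → V) (π' : Fin b.n → V),
          Eqv S a b π π' → π (g a) = π' (g b) := by
      intro t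
      have hm : ∀ δ : S → A, ∃ m : Pl 𝔸, ∀ a ∈ t, dg S a = δ → c (m.star a) = 0 := by
        intro δ
        by_contra hno
        push Not at hno
        choose F hFt hFd hF0 using hno
        have hj : ∀ m : Pl 𝔸, ∃ j : Fin r, Fin.succAbove 0 j = c (m.star (F m)) :=
          fun m => Fin.exists_succAbove_eq (hF0 m)
        choose j hj using hj
        apply hr
        refine ⟨img t S, hA t S hS, j, fun m => p1 (J (m.star (F m))), ?_⟩
        intro m m' V π π' _ he hc
        refine h (m.star (F m)) (m'.star (F m')) V _ _ (fun hf => hf.elim)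
          (he.star_dg (hFt m) ((hFd m).trans (hFd m').symm)) ?_
        rw [← hj, ← hj, hc]
      choose M hM using hm
      refine ⟨fun a => p2 (J ((M (dg S a)).star a)), fun a ha b hb V π π' he => ?_⟩
      have hd := he.dg
      have he' := Eqv.star ha (m := M (dg S a)) (m' := M (dg S a)) (π := id) (π' := id) (S := S)
        (t := t) (fun _ _ => rfl) he
      have h1 := h _ _ _ _ _ (fun hf => hf.elim) he' (by
        rw [hM _ a ha rfl, hM _ b hb hd.symm])
      have h2 := (Prod.ext_iff.1 h1).2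
      simp only at h2
      show π (p2 (J ((M (dg S a)).star a))) = π' (p2 (J ((M (dg S b)).star b)))
      rw [← hd]
      exact h2
    obtain ⟨g, hg⟩ := compact (X := Pl 𝔸) (β := fun a => Fin a.n)
      (fun a b u v => ∀ (V : Type) (π : Fin a.n → V) (π' : Fin b.n → V),
          Eqv S a b π π' → π u = π' v) hfin
    exact ⟨g, hg⟩

end steps

end Pool.Agent.Helper67.LCC
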