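import Mathlib

/-!
Chain selections (the layered hardness criterion of promise problems) and oligomorphic groups.
-/

set_option autoImplicit false

namespace Pool.Agent.Helper67.LCC

variable {D T : Type} (P : ∀ n : ℕ, ((Fin n → D) → T) → Prop) (S : Set D)
  (E : ∀ n : ℕ, ((Fin n → D) → T) → Finset (Fin n))

/-- `BadChain P S E ℓ n g L`: there is a chain `f₀ → f₁ → ... → f_ℓ = g` of functions which satisfy
`P` and have at least one variable, each of them agreeing on `S` with the minor of its predecessor
given by a map between the sets of variables, such that for all `i < j` the composed map from the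
variables of `f_i` to the variables of `f_j` is injective on the set `E f_i` of the variables
selected for `f_i` and maps no element of it to a variable selected for `f_j`. `L` is the list of
the images of the sets `E f_ℓ, ..., E f₀` in the set of variables of `g`. -/
inductive BadChain : ℕ → ∀ n : ℕ, ((Fin n → D) → T) → List (Finset (Fin n)) → Prop
  | start (n : ℕ) (f : (Fin n → D) → T) (hn : 0 < n) (hf : P n f) : BadChain 0 n f [E n f]
  | step (ℓ n n' : ℕ) (f : (Fin n → D) → T) (g : (Fin n' → D) → T) (L : List (Finset (Fin n)))
      (π : Fin n → Fin n') (h : BadChain ℓ n f L) (hn : 0 < n') (hg : P n' g)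
      (hm : ∀ x : Fin n' → D, (∀ v, x v ∈ S) → g x = f (x ∘ π))
      (hL : ∀ s ∈ L, Set.InjOn π s ∧ ∀ v ∈ s, π v ∉ E n' g) :
      BadChain (ℓ + 1) n' g (E n' g :: L.map (Finset.image π))

/-- `E` selects a set of at most `B` variables for each function which satisfies `P`, and along
every chain of `ℓ` minors (compared on `S`) whose maps are injective on the selected sets some
selected variable is mapped to a selected variable of a later function of the chain. -/
structure ChainSelection (B ℓ : ℕ) : Prop where
  bdd : ∀ (n : ℕ) (f : (Fin n → D) → T), P n f → (E n f).card ≤ B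
  chain : ∀ (n : ℕ) (f : (Fin n → D) → T) (L : List (Finset (Fin n))), ¬ BadChain P S E ℓ n f L

/-- The permutation group `Γ` of `A` has finitely many orbits on `A ^ k` for every `k`. -/
def Oligomorphic {A : Type} (Γ : Subgroup (Equiv.Perm A)) : Prop :=
  ∀ k : ℕ, ∃ F : Set (Fin k → A), F.Finite ∧ ∀ v : Fin k → A, ∃ w ∈ F, ∃ g ∈ Γ,
    ∀ j, g (v j) = w j

/-- The map `α` is in the closure of `Γ` with respect to pointwise convergence: on every finite set
it agrees with an element of `Γ`. -/
def InClosureOf {A : Type} (Γ : Subgroup (Equiv.Perm A)) (α : A → A) : Prop :=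
  ∀ S : Set A, S.Finite → ∃ g ∈ Γ, ∀ x ∈ S, g x = α x

end Pool.Agent.Helper67.LCC
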