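import Pool.Agent.Helper67.LCC.Crit
import Pool.Agent.Helper67.LCC.Defs
import Pool.Agent.Helper67.BEA.Conv

/-!
Local chain selections for the polymorphisms of omega-categorical structures and for promise
templates.
-/

set_option autoImplicit false

namespace Pool.Agent.Helper67.LCC

open Set Function Pool.Agent.W994.AR Pool.Agent.Q112.BP Pool.Agent.Helper67.BEA

section defs

variable {D T : Type} {P : ∀ n : ℕ, ((Fin n → D) → T) → Prop} {S : Set D}
  {E : ∀ n : ℕ, ((Fin n → D) → T) → Finset (Fin n)}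

theorem BadChain.data {ℓ n : ℕ} {f : (Fin n → D) → T} {L : List (Finset (Fin n))}
    (h : BadChain P S E ℓ n f L) {B : ℕ} (hB : ∀ (n : ℕ) (f : (Fin n → D) → T), P n f →
      (E n f).card ≤ B) : L.length = ℓ + 1 ∧ (∀ s ∈ L, s.card ≤ B) ∧ E n f ∈ L := by
  induction h with
  | start n f hn hf => simp [hB n f hf]
  | step ℓ n n' f g L π h hn hg hm hL ih =>
    obtain ⟨h1, h2, h3⟩ := ih
    refine ⟨by simp [h1], ?_, by simp⟩
    intro s hs
    rcases List.mem_cons.1 hs with rfl | hs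
    · exact hB n' g hg
    · obtain ⟨s', hs', rfl⟩ := List.mem_map.1 hs
      exact Finset.card_image_le.trans (h2 s' hs')

end defs

variable {A ι : Type} {ar : ι → ℕ} {𝔸 : Str ι ar A}

theorem card_fold {n B : ℕ} (L : List (Finset (Fin n))) (h : ∀ s ∈ L, s.card ≤ B) :
    (L.foldr (· ∪ ·) ∅).card ≤ L.length * B := by
  induction L with
  | nil => simp
  | cons s L ih =>
    have h1 := ih (fun s hs => h s (List.mem_cons_of_mem _ hs))
    have h2 := h s (by simp)
    have h3 := Finset.card_union_le s (L.foldr (· ∪ ·) ∅)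
    simp only [List.foldr_cons, List.length_cons]
    calc _ ≤ _ := h3
      _ ≤ B + L.length * B := Nat.add_le_add h2 h1
      _ = (L.length + 1) * B := by ring

theorem mem_fold {n : ℕ} (L : List (Finset (Fin n))) (v : Fin n) :
    v ∈ L.foldr (· ∪ ·) ∅ ↔ ∃ s ∈ L, v ∈ s := by
  induction L with
  | nil => simp
  | cons s L ih => simp [ih]

/-- A local chain selection gives a variable for each polymorphism. -/
theorem ChainSelection.hasJ {Adm : Set A → Prop}
    (hA : ∀ (t : Finset (Pl 𝔸)) (S : Set A), Adm S → Adm (img t S)) {S : Set A} (hS : Adm S)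
    {B ℓ : ℕ} {E : ∀ n : ℕ, ((Fin n → A) → A) → Finset (Fin n)}
    (h : ChainSelection (fun _ f => PolA 𝔸 f) S E B ℓ) : ∃ S : Set A, Adm S ∧ HasJ 𝔸 S := by
  classical
  let Q : Pl 𝔸 → ℕ → Prop := fun a j => ∃ L, BadChain (fun _ f => PolA 𝔸 f) S E j a.n a.f L
  have hQ0 : ∀ a, Q a 0 := fun a => ⟨_, BadChain.start a.n a.f a.pos a.pol⟩
  let c : Pl 𝔸 → ℕ := fun a => Nat.findGreatest (Q a) ℓ
  have hc : ∀ a, Q a (c a) := fun a => Nat.findGreatest_spec (P := Q a) (Nat.zero_le ℓ) (hQ0 a)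
  have hcl : ∀ a, c a < ℓ := by
    intro a
    refine lt_of_le_of_ne (Nat.findGreatest_le ℓ) fun he => ?_
    obtain ⟨L, hL⟩ := hc a
    rw [he] at hL
    exact h.chain _ _ _ hL
  choose L hL using hc
  have hd := fun a => (hL a).data h.bdd
  refine crit_sets hA (S := S) (C := Fin ℓ) (B := ℓ * B) hS (fun a => ⟨c a, hcl a⟩)
    (fun a => (L a).foldr (· ∪ ·) ∅) ?_ ?_
  · intro a
    refine (card_fold _ (hd a).2.1).trans ?_
    rw [(hd a).1]
    exact Nat.mul_le_mul_right _ (hcl a)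
  · intro a b π hm hcc hinj
    by_contra hno
    push Not at hno
    have h1 : Q b (c a + 1) := by
      refine ⟨_, BadChain.step (c a) a.n b.n a.f b.f (L a) π (hL a) b.pos b.pol hm ?_⟩
      intro s hs
      refine ⟨fun u hu w hw huw => hinj ?_ ?_ huw, fun v hv hv' => ?_⟩
      · exact (mem_fold _ _).2 ⟨s, hs, hu⟩
      · exact (mem_fold _ _).2 ⟨s, hs, hw⟩
      · exact hno v ((mem_fold _ _).2 ⟨s, hs, hv⟩) ((mem_fold _ _).2 ⟨_, (hd b).2.2, hv'⟩)
    have h2 : c a + 1 ≤ c b := Nat.le_findGreatest (hcl a) h1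
    have h3 : c a = c b := congrArg Fin.val hcc
    omega

theorem HasJ.mono {S S' : Set A} (hS : S ⊆ S') (h : HasJ 𝔸 S) : HasJ 𝔸 S' := by
  obtain ⟨J, h⟩ := h
  exact ⟨J, fun a b V π π' he => h a b V π π' (he.mono hS)⟩

theorem HasJ.nonempty {S : Set A} (h : HasJ 𝔸 S) : Nonempty A := by
  by_contra hA
  obtain ⟨J, h⟩ := h
  let a : Pl 𝔸 := ⟨2, by norm_num, fun x => x 0, fun _ _ hv => hv 0⟩
  have h1 := h a a (Fin 2) id ![1, 0] (fun x _ => (hA ⟨x 0⟩).elim)
  have h2 : ∀ i : Fin 2, id i ≠ (![1, 0] : Fin 2 → Fin 2) i := by decide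
  exact h2 _ h1

/-- For omega-categorical structures, a variable for each polymorphism which respects all
coincidences of minors on a finite set gives a pp-construction of `K_3`. -/
theorem HasJ.k3 [Finite ι] [Countable A] (hO : Oligo 𝔸) {S : Set A} (hS : S.Finite)
    (h : HasJ 𝔸 S) : PPConstructsK3 𝔸 := by
  obtain ⟨a₀⟩ := h.nonempty
  obtain ⟨J, h⟩ := h.mono (Set.subset_insert a₀ S)
  obtain ⟨k, ⟨ε⟩⟩ := Finite.exists_equiv_fin Ed
  have hk : 0 < k := Fin.pos_iff_nonempty.2 ⟨ε ⟨(0, 1), by decide⟩⟩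
  let a3 : ∀ f : (Fin 3 → A) → A, PolA 𝔸 f → Pl 𝔸 := fun f hf => ⟨3, by norm_num, f, hf⟩
  let a6 : ∀ f : (Ed → A) → A, PolA 𝔸 f → Pl 𝔸 := fun f hf =>
    ⟨k, hk, fun x => f (x ∘ ε), BEA.PolA.minor hf ε⟩
  refine k3_of_select hO (insert a₀ S) (hS.insert a₀) ⟨a₀, Set.mem_insert _ _⟩
    (fun f hf => J (a3 f hf)) (fun f hf => ε.symm (J (a6 f hf))) ?_ ?_ ?_
  · intro f hf hf'
    refine h (a3 _ hf') (a6 f hf) (Fin 3) id (fun v => (ε.symm v).1.1) ?_
    intro x _
    show f _ = f _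
    congr 1
    funext e
    simp
  · intro f hf hf'
    refine h (a3 _ hf') (a6 f hf) (Fin 3) id (fun v => (ε.symm v).1.2) ?_
    intro x _
    show f _ = f _
    congr 1
    funext e
    simp
  · intro f f' hf hf' hff'
    exact h (a3 f hf) (a3 f' hf') (Fin 3) id id (fun x hx => hff' x hx)

/-- Conversely, a structure which pp-constructs `K_3` has a local selection of one variable. -/
theorem chainSelection_of_k3 (h : PPConstructsK3 𝔸) : ∃ (S : Set A)
    (E : ∀ n : ℕ, ((Fin n → A) → A) → Finset (Fin n)), S.Finite ∧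
      ChainSelection (fun _ f => PolA 𝔸 f) S E 1 1 := by
  classical
  obtain ⟨S, E, hS, -, h⟩ := selection_of_k3 h
  refine ⟨S, fun n f => (Set.toFinite (E f)).toFinset, hS, ?_, ?_⟩
  · intro n f hf
    rcases n with _ | n
    · exact (Finset.card_le_univ _).trans (by simp)
    · rw [← Set.ncard_eq_toFinset_card _ (Set.toFinite (E f))]
      exact h.bdd f hf
  · intro n₁ g₁ L₁ hL₁
    cases hL₁ with
    | step ℓ n n' f g L π h0 hn hg hm hL =>
      cases h0 with
      | start n f hn' hf =>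
        have : Nonempty (Fin n₁) := ⟨⟨0, hn⟩⟩
        obtain ⟨w, hw⟩ := h.ne g₁ hg
        have h1 : E g₁ = E (fun y : Fin n₁ → A => f (y ∘ π)) :=
          h.loc g₁ _ hg (BEA.PolA.minor hf π) (fun x hx => hm x hx)
        rw [h1] at hw
        obtain ⟨v, hv, rfl⟩ := h.minor f π hf hw
        have h2 := (hL _ (List.mem_singleton.2 rfl)).2 v ((Set.Finite.mem_toFinset _).2 hv)
        refine h2 ((Set.Finite.mem_toFinset _).2 ?_)
        rw [h1]
        exact hw

/-- Promise templates whose polymorphisms have a chain selection. -/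
theorem hasJ_of_promise {J τ D C : Type} {arτ : τ → ℕ} [Finite J] [Finite D]
    {𝔻 : Str τ arτ D} {𝕋 : Str τ arτ C}
    {ℙ : Str τ arτ (J → A)} (hℙ : ∀ i, PPDefPow 𝔸 (ℙ i)) {e : D → J → A} (he : Hom 𝔻 ℙ e)
    {h : (J → A) → C} (hh : Hom ℙ 𝕋 h) {B ℓ : ℕ}
    {E : ∀ n : ℕ, ((Fin n → D) → C) → Finset (Fin n)}
    (hE : ChainSelection (fun _ t => PromisePol 𝔻 𝕋 t) Set.univ E B ℓ) :
    ∃ S : Set A, S.Finite ∧ HasJ 𝔸 S := by
  let G : ∀ n : ℕ, ((Fin n → A) → A) → (Fin n → D) → C :=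
    fun n f x => h (fun j => f (fun k => e (x k) j))
  have hG : ∀ n (f : (Fin n → A) → A), PolA 𝔸 f → PromisePol 𝔻 𝕋 (G n f) := by
    intro n f hf i v hv
    exact hh i _ ((hℙ i).preserves hf (fun k a j => e (v k a) j) (fun k => he i _ (hv k)))
  let S : Set A := range fun p : D × J => e p.1 p.2
  have hS : S.Finite := Set.finite_range _
  have key : ∀ ℓ n (f : (Fin n → A) → A) L,
      BadChain (fun _ f => PolA 𝔸 f) S (fun n f => E n (G n f)) ℓ n f L →
      BadChain (fun _ t => PromisePol 𝔻 𝕋 t) Set.univ E ℓ n (G n f) L := by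
    intro ℓ n f L hL
    induction hL with
    | start n f hn hf => exact BadChain.start n (G n f) hn (hG n f hf)
    | step ℓ n n' f g L π h0 hn hg hm hL ih =>
      refine BadChain.step ℓ n n' (G n f) (G n' g) L π ih hn (hG n' g hg) ?_ hL
      intro x _
      show h _ = h _
      congr 1
      funext j
      exact hm (fun k => e (x k) j) (fun v => ⟨(x v, j), rfl⟩)
  refine ChainSelection.hasJ (Adm := Set.Finite) (fun t _ hS => img_finite t hS) hS (B := B)
    (ℓ := ℓ) (E := fun n f => E n (G n f)) ⟨fun n f hf => hE.bdd n _ (hG n f hf), ?_⟩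
  intro n f L hL
  exact hE.chain _ _ _ (key _ _ _ _ hL)

end Pool.Agent.Helper67.LCC
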