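import Pool.Agent.Helper67.LCC.Asg

/-!
The criterion: bounded selections of variables in finitely many classes which meet their images
under minors give a variable for each polymorphism which respects all coincidences of minors on some
set.
-/

set_option autoImplicit false

namespace Pool.Agent.Helper67.LCC

open Set Function Pool.Agent.W994.AR Pool.Agent.Q112.BP Pool.Agent.Helper67.BEA

variable {A ι : Type} {ar : ι → ℕ} {𝔸 : Str ι ar A}

/-- a minor of `a` -/
def Pl.minor (a : Pl 𝔸) {q : ℕ} (hq : 0 < q) (σ : Fin a.n → Fin q) : Pl 𝔸 :=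
  ⟨q, hq, fun x => a.f (x ∘ σ), BEA.PolA.minor a.pol σ⟩

/-- composition with an endomorphism from the inside -/
def Pl.pre (b : Pl 𝔸) {u : A → A} (hu : IsEnd 𝔸 u) : Pl 𝔸 :=
  ⟨b.n, b.pos, fun x => b.f (fun i => u (x i)), hu.pre b.pol⟩

theorem exists_norm {V : Type} {n n' : ℕ} (hn : 0 < n) (π : Fin n → V) (π' : Fin n' → V) :
    ∃ (q : ℕ) (_ : 0 < q) (e : V → Fin q), ∀ u v, e (π u) = e (π' v) → π u = π' v := by
  classical
  let W : Set V := range π ∪ range π'
  have hW : W.Finite := (Set.finite_range π).union (Set.finite_range π')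
  have := hW.to_subtype
  obtain ⟨q, ⟨ε⟩⟩ := Finite.exists_equiv_fin W
  have hq : 0 < q := Fin.pos_iff_nonempty.2 ⟨ε ⟨π ⟨0, hn⟩, Or.inl ⟨_, rfl⟩⟩⟩
  refine ⟨q, hq, fun v => if h : v ∈ W then ε ⟨v, h⟩ else ⟨0, hq⟩, fun u v huv => ?_⟩
  have h1 : π u ∈ W := Or.inl ⟨u, rfl⟩
  have h2 : π' v ∈ W := Or.inr ⟨v, rfl⟩
  simp only [dif_pos h1, dif_pos h2] at huv
  exact congrArg Subtype.val (ε.injective huv)

theorem Part.hasJ_one {S : Set A} (h : Part 𝔸 True S (Fin 1)) : HasJ 𝔸 S := by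
  obtain ⟨c, J, h⟩ := h
  refine ⟨J, fun a b V π π' he => ?_⟩
  obtain ⟨q, hq, e, hqe⟩ := exists_norm a.pos π π'
  apply hqe
  have h1 := h a (a.minor hq (e ∘ π)) (Fin q) (e ∘ π) id (fun _ => bijective_id)
    (fun x _ => rfl) (Subsingleton.elim _ _)
  have h2 := h b (a.minor hq (e ∘ π)) (Fin q) (e ∘ π') id (fun _ => bijective_id)
    (fun x hx => ((he.map e) x hx).symm) (Subsingleton.elim _ _)
  exact h1.trans h2.symm

section steps

variable {Adm : Set A → Prop} (hA : ∀ (t : Finset (Pl 𝔸)) (S : Set A), Adm S → Adm (img t S))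

include hA

/-- one class instead of several, minors -/
theorem step1m : ∀ (r : ℕ), (∃ S : Set A, Adm S ∧ Part 𝔸 True S (Fin (r + 1))) →
    ∃ S : Set A, Adm S ∧ HasJ 𝔸 S := by
  classical
  intro r
  induction r with
  | zero =>
    rintro ⟨S, hS, h⟩
    exact ⟨S, hS, h.hasJ_one⟩
  | succ r ih =>
    rintro ⟨S, hS, c, J, h⟩
    by_cases h1 : ∃ S : Set A, Adm S ∧ Part 𝔸 True S (Fin (r + 1))
    · exact ih h1
    by_cases h2 : ∃ S' : Set A, Adm S' ∧ ∃ t : Pl 𝔸 → Fin (r + 2), ∀ κ,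
        ∃ g g' : (a : Pl 𝔸) → Fin a.n, ∀ (a b : Pl 𝔸) (V : Type) (π : Fin a.n → V)
          (π' : Fin b.n → V), Bijective π' → Eqv S' a b π π' → t b = κ → π (g a) = π' (g' b)
    · obtain ⟨S', hS', t, ht⟩ := h2
      choose g g' hg using ht
      have h3 : HasG 𝔸 False S' Unit (r + 2) := by
        refine ⟨fun _ => (), fun a κ => g κ a, fun a κ => g κ a, fun a b V π π' _ he _ => ?_⟩
        obtain ⟨q, hq, e, hqe⟩ := exists_norm a.pos π π'
        let d := a.minor hq (e ∘ π)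
        refine ⟨t d, hqe _ _ ?_⟩
        have h4 := hg (t d) a d (Fin q) (e ∘ π) id bijective_id (fun x _ => rfl) rfl
        have h5 := hg (t d) b d (Fin q) (e ∘ π') id bijective_id
          (fun x hx => ((he.map e) x hx).symm) rfl
        exact h4.trans h5.symm
      obtain ⟨S₂, C₂, hS₂, hC₂, h4⟩ := step2 hA False (r + 2) ⟨S', Unit, hS', inferInstance, h3⟩
      obtain ⟨c₂, J₂, h5⟩ := h4.part
      obtain ⟨s, ⟨ε⟩⟩ := Finite.exists_equiv_fin C₂
      refine step1c hA s ⟨S₂, hS₂, fun a => ε (c₂ a), J₂, fun a b V π π' hb he hc => ?_⟩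
      exact h5 a b V π π' hb he (ε.injective hc)
    exfalso
    apply h1
    refine ⟨S, hS, ?_⟩
    push Not at h2
    have hfin : ∀ t : Finset (Pl 𝔸), ∃ g : (a : Pl 𝔸) → Fin (r + 1) × Fin a.n,
        ∀ a ∈ t, ∀ b ∈ t, ∀ (V : Type) (π : Fin a.n → V) (π' : Fin b.n → V),
          Bijective π' → Eqv S a b π π' → (g a).1 = (g b).1 → π ((g a).2) = π' ((g b).2) := by
      intro t
      have hm : ∀ δ : S → A, ∃ (m : Pl 𝔸) (κ : Fin (r + 2)), ∀ a ∈ t, dg S a = δ →
          c (m.star a) ≠ κ := by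
        intro δ
        by_cases hδ : ∃ a₀ ∈ t, dg S a₀ = δ
        · obtain ⟨a₀, ha₀, rfl⟩ := hδ
          obtain ⟨κ, hκ⟩ := h2 (img t S) (hA t S hS) (fun b => c (b.pre (diag_end a₀.pol)))
          by_contra hno
          push Not at hno
          choose F hFt hFd hFc using fun m => hno m κ
          obtain ⟨a, b, V, π, π', hb, he, hc, hne⟩ := hκ (fun m => p1 (J (m.star (F m))))
            (fun b => J (b.pre (diag_end a₀.pol)))
          apply hne
          refine h (a.star (F a)) (b.pre (diag_end a₀.pol)) V (fun v => π (p1 v)) π'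
            (fun _ => hb) ?_ ((hFc a).trans hc.symm)
          intro x hx
          have e1 : ∀ v, (F a).f (fun _ => x v) = a₀.f (fun _ => x v) :=
            fun v => congrFun (hFd a) ⟨x v, hx v⟩
          have e2 := he (fun v => a₀.f (fun _ => x v)) (fun v => ⟨a₀, ha₀, _, fun _ => hx v, rfl⟩)
          calc (a.star (F a)).f (x ∘ fun v => π (p1 v))
              = a.f (fun p => (F a).f (fun q => x (π (finProdFinEquiv.symm
                  (finProdFinEquiv (p, q))).1))) := rfl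
            _ = a.f (fun p => (F a).f (fun _ => x (π p))) := by
                simp only [Equiv.symm_apply_apply]
            _ = a.f ((fun v => a₀.f (fun _ => x v)) ∘ π) := by
                congr 1
                funext p
                exact e1 (π p)
            _ = b.f ((fun v => a₀.f (fun _ => x v)) ∘ π') := e2
            _ = (b.pre (diag_end a₀.pol)).f (x ∘ π') := rfl
        · push Not at hδ
          exact ⟨unit 𝔸, 0, fun a ha h3 => absurd h3 (hδ a ha)⟩
      choose M K hMK using hm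
      have hj : ∀ a : Pl 𝔸, ∃ j : Fin (r + 1), a ∈ t →
          (K (dg S a)).succAbove j = c ((M (dg S a)).star a) := by
        intro a
        by_cases ha : a ∈ t
        · obtain ⟨j, hj⟩ := Fin.exists_succAbove_eq (hMK _ a ha rfl)
          exact ⟨j, fun _ => hj⟩
        · exact ⟨0, fun h3 => absurd h3 ha⟩
      choose j hj using hj
      refine ⟨fun a => (j a, p2 (J ((M (dg S a)).star a))), fun a ha b hb V π π' hbij he hc => ?_⟩
      have hd := he.dg
      have he' := Eqv.star ha (m := M (dg S a)) (m' := M (dg S a)) (π := id) (π' := id) (S := S)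
        (t := t) (fun _ _ => rfl) he
      have hb' : Bijective (fun v : Fin ((M (dg S a)).star b).n => (id (p1 v), π' (p2 v))) :=
        (Function.Bijective.prodMap bijective_id hbij).comp p_bij
      have h3 := h _ _ _ _ _ (fun _ => hb') he' (by
        have e1 := hj a ha
        have e2 := hj b hb
        rw [← hd] at e2
        rw [← e1, ← e2]
        exact congrArg _ hc)
      have h4 := (Prod.ext_iff.1 h3).2
      simp only at h4
      show π (p2 (J ((M (dg S a)).star a))) = π' (p2 (J ((M (dg S b)).star b)))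
      rw [← hd]
      exact h4
    obtain ⟨g, hg⟩ := compact (X := Pl 𝔸) (β := fun a => Fin (r + 1) × Fin a.n)
      (fun a b u v => ∀ (V : Type) (π : Fin a.n → V) (π' : Fin b.n → V),
          Bijective π' → Eqv S a b π π' → u.1 = v.1 → π u.2 = π' v.2) hfin
    exact ⟨fun a => (g a).1, fun a => (g a).2, fun a b V π π' hb => hg a b V π π' (hb trivial)⟩

/-- The criterion. -/
theorem crit {S : Set A} {C : Type} {k B : ℕ} (hS : Adm S) [hC : Finite C]
    (h : HasB 𝔸 S C k B) : ∃ S : Set A, Adm S ∧ HasJ 𝔸 S := by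
  obtain ⟨S₁, C₁, hS₁, hC₁, h₁⟩ := stepB hA B ⟨S, C, hS, hC, h⟩
  obtain ⟨S₂, C₂, hS₂, hC₂, h₂⟩ := step2 hA True k ⟨S₁, C₁, hS₁, hC₁, h₁⟩
  obtain ⟨c, J, h₃⟩ := h₂.part
  obtain ⟨s, ⟨ε⟩⟩ := Finite.exists_equiv_fin C₂
  have hs : 0 < s := Fin.pos_iff_nonempty.2 ⟨ε (c (unit 𝔸))⟩
  obtain ⟨r, rfl⟩ : ∃ r, s = r + 1 := ⟨s - 1, by omega⟩
  exact step1m hA r ⟨S₂, hS₂, fun a => ε (c a), J, fun a b V π π' hb he hc =>
    h₃ a b V π π' hb he (ε.injective hc)⟩

/-- The criterion with sets of selected variables. -/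
theorem crit_sets {S : Set A} {C : Type} {B : ℕ} (hS : Adm S) [hC : Finite C] (c : Pl 𝔸 → C)
    (E : (a : Pl 𝔸) → Finset (Fin a.n)) (hE : ∀ a, (E a).card ≤ B)
    (h : ∀ (a b : Pl 𝔸) (π : Fin a.n → Fin b.n),
      (∀ x : Fin b.n → A, (∀ v, x v ∈ S) → b.f x = a.f (x ∘ π)) → c a = c b →
      Set.InjOn π (E a) → ∃ v ∈ E a, π v ∈ E b) : ∃ S : Set A, Adm S ∧ HasJ 𝔸 S := by
  classical
  have hen : ∀ a : Pl 𝔸, ∃ g : Fin B → Fin a.n, ∀ v ∈ E a, ∃ i, g i = v := by
    intro a
    have : Nonempty (Fin a.n) := ⟨⟨0, a.pos⟩⟩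
    refine ⟨fun i => if h : i.val < (E a).card then ((E a).equivFin.symm ⟨i.val, h⟩).val
      else Classical.arbitrary _, fun v hv => ?_⟩
    refine ⟨⟨((E a).equivFin ⟨v, hv⟩).val, lt_of_lt_of_le ((E a).equivFin ⟨v, hv⟩).isLt (hE a)⟩, ?_⟩
    simp
  choose g hg using hen
  refine crit hA (k := B * B) (B := B) hS (C := C) ⟨c, fun a i => g a (finProdFinEquiv.symm i).1,
    fun a i => g a (finProdFinEquiv.symm i).2, E, hE, ?_⟩
  intro a b V π π' hb he hc hinj
  obtain ⟨σ, hσ, hσ'⟩ := Function.bijective_iff_has_inverse.1 hb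
  obtain ⟨v, hv, hv'⟩ := h a b (σ ∘ π) (by
    intro x hx
    have h1 := he (x ∘ σ) (fun v => hx _)
    have h2 : (x ∘ σ) ∘ π' = x := by
      funext v
      exact congrArg x (hσ v)
    rw [h2] at h1
    exact h1.symm) hc (by
    intro u hu w hw huw
    apply hinj hu hw
    have h1 := congrArg π' huw
    simpa [hσ' _] using h1)
  obtain ⟨i, hi⟩ := hg a v hv
  obtain ⟨j, hj⟩ := hg b _ hv'
  refine ⟨finProdFinEquiv (i, j), ?_⟩
  simp only [Equiv.symm_apply_apply]
  rw [hi, hj]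
  exact (hσ' _).symm

end steps

/-- The local version: for a finite set `S`. -/
theorem crit_local {S : Set A} {C : Type} {B : ℕ} (hS : S.Finite) [hC : Finite C] (c : Pl 𝔸 → C)
    (E : (a : Pl 𝔸) → Finset (Fin a.n)) (hE : ∀ a, (E a).card ≤ B)
    (h : ∀ (a b : Pl 𝔸) (π : Fin a.n → Fin b.n),
      (∀ x : Fin b.n → A, (∀ v, x v ∈ S) → b.f x = a.f (x ∘ π)) → c a = c b →
      Set.InjOn π (E a) → ∃ v ∈ E a, π v ∈ E b) : ∃ S : Set A, S.Finite ∧ HasJ 𝔸 S :=
  crit_sets (Adm := Set.Finite) (fun t _ hS => img_finite t hS) hS c E hE h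

end Pool.Agent.Helper67.LCC
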