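import Pool.Agent.Helper67.LCC.Chain
import Pool.Agent.Helper67.TMI.Olsak

/-!
Olšák polymorphisms up to a finite colouring: the local version.
-/

set_option autoImplicit false

namespace Pool.Agent.Helper67.LCC

open Set Function Finset Pool.Agent.W994.AR Pool.Agent.Q112.BP Pool.Agent.Helper67.BEA
  Pool.Agent.Helper67.TMI

/-- The selected variables of a colouring of a cube and of a minor with the same set of colours
overlap. -/
theorem nae_step {n n' c : ℕ} {F : (Fin n → Bool) → Fin c} {F' : (Fin n' → Bool) → Fin c}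
    {π : Fin n → Fin n'} (hF' : NAEPol F') (hπ : F' = fun z => F (z ∘ π))
    (hK : cols F (dom F) (asg F) = cols F' (dom F') (asg F')) (hinj : Set.InjOn π (dom F)) :
    ∃ a ∈ dom F, π a ∈ dom F' := by
  classical
  let b : Fin n' → Bool := fun v => if h : ∃ k ∈ dom F, π k = v then asg F h.choose else true
  have hb : ∀ k ∈ dom F, b (π k) = asg F k := by
    intro k hk
    have h : ∃ k' ∈ dom F, π k' = π k := ⟨k, hk, rfl⟩
    have h1 : h.choose = k := hinj h.choose_spec.1 hk h.choose_spec.2
    simp only [b, dif_pos h, h1]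
  have hlev : lev F = lev F' := by
    have h1 := cols_card F
    have h2 := cols_card F'
    rw [hK] at h1
    have h3 := lev_lt F
    have h4 := lev_lt F'
    omega
  have hs : ((dom F).image π).card ≤ sz c (lev F') := by
    rw [← hlev]
    exact Finset.card_image_le.trans (dom_card F)
  have hsub : cols F' ((dom F).image π) b ⊆ cols F' (dom F') (asg F') := by
    rw [← hK]
    intro k hk
    obtain ⟨z, hz, rfl⟩ := mem_cols.1 hk
    refine mem_cols.2 ⟨z ∘ π, fun k hk => ?_, ?_⟩
    · show z (π k) = _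
      rw [hz _ (Finset.mem_image_of_mem _ hk), hb k hk]
    · rw [hπ]
  have heq : cols F' ((dom F).image π) b = cols F' (dom F') (asg F') := by
    apply Finset.eq_of_subset_of_card_le hsub
    rw [cols_card]
    exact card_of_small hs
  have := overlap hF' hs (dom_card F') heq (cols_card F')
  rw [Finset.not_disjoint_iff] at this
  obtain ⟨v, hv, hv'⟩ := this
  obtain ⟨a, ha, rfl⟩ := Finset.mem_image.1 hv
  exact ⟨a, ha, hv'⟩

variable {A ι : Type} {ar : ι → ℕ} {𝔸 : Str ι ar A}

/-- If a finite colouring of a finite power of the domain has no Olšák polymorphism up to colours on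
some finite set, then there is a variable for each polymorphism which respects the coincidences of
minors on some finite set. -/
theorem hasJ_of_colouring {J K : Type} [Finite J] [Finite K] (χ : (J → A) → K) {S : Set (J → A)}
    (hS : S.Finite)
    (hno : ∀ f : (Fin 6 → A) → A, PolA 𝔸 f → ¬ ∀ x ∈ S, ∀ y ∈ S,
      χ (act f (form 0 x y)) = χ (act f (form 1 x y)) ∧
      χ (act f (form 1 x y)) = χ (act f (form 2 x y))) : ∃ S : Set A, S.Finite ∧ HasJ 𝔸 S := by
  classical
  have : Finite S := hS
  obtain ⟨c, ⟨ε⟩⟩ := Finite.exists_equiv_fin (S × S → K)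
  let G : ∀ n : ℕ, ((Fin n → A) → A) → (Fin n → Bool) → Fin c := fun n f z =>
    ε (fun p => χ (act f (fun k => if z k then p.2.1 else p.1.1)))
  have hG : ∀ n (f : (Fin n → A) → A), PolA 𝔸 f → NAEPol (G n f) := by
    intro n f hf x y z hxyz hFF
    obtain ⟨h1, h2⟩ := hFF
    choose τ hτ using fun k => exists_col (x k) (y k) (z k) (hxyz k)
    refine hno (fun w => f (w ∘ τ)) (BEA.PolA.minor hf τ) (fun u hu v hv => ?_)
    have h3 := congrFun (ε.injective h1) (⟨u, hu⟩, ⟨v, hv⟩)
    have h4 := congrFun (ε.injective h2) (⟨u, hu⟩, ⟨v, hv⟩)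
    simp only at h3 h4
    have e0 : act (fun w => f (w ∘ τ)) (form 0 u v) = act f (fun k => if x k then v else u) := by
      funext j
      show f _ = f _
      congr 1
      funext k
      simp [form, (hτ k).1]
    have e1 : act (fun w => f (w ∘ τ)) (form 1 u v) = act f (fun k => if y k then v else u) := by
      funext j
      show f _ = f _
      congr 1
      funext k
      simp [form, (hτ k).2.1]
    have e2 : act (fun w => f (w ∘ τ)) (form 2 u v) = act f (fun k => if z k then v else u) := by
      funext j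
      show f _ = f _
      congr 1
      funext k
      simp [form, (hτ k).2.2]
    rw [e0, e1, e2]
    exact ⟨h3, h4⟩
  let S₀ : Set A := range fun p : S × J => p.1.1 p.2
  have hS₀ : S₀.Finite := Set.finite_range _
  refine crit_local (C := Finset (Fin c)) (B := sz c c) hS₀
    (fun a => cols (G a.n a.f) (dom (G a.n a.f)) (asg (G a.n a.f))) (fun a => dom (G a.n a.f))
    (fun a => dom_card_le _) ?_
  intro a b π hm hc hinj
  refine nae_step (hG b.n b.f b.pol) ?_ hc hinj
  funext z
  show ε _ = ε _
  congr 1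
  funext p
  show χ _ = χ _
  congr 1
  funext j
  refine hm _ (fun v => ?_)
  show (if z v then p.2.1 else p.1.1) j ∈ S₀
  split_ifs
  · exact ⟨(p.2, j), rfl⟩
  · exact ⟨(p.1, j), rfl⟩

/-- Promise templates without Olšák polymorphism. -/
theorem hasJ_of_olsak {J τ D C : Type} {arτ : τ → ℕ} [Finite J] [Finite D] [Finite C]
    {𝔻 : Str τ arτ D} {𝕋 : Str τ arτ C}
    {ℙ : Str τ arτ (J → A)} (hℙ : ∀ i, PPDefPow 𝔸 (ℙ i)) {e : D → J → A} (he : Hom 𝔻 ℙ e)
    {h : (J → A) → C} (hh : Hom ℙ 𝕋 h)
    (hno : ∀ t : (Fin 6 → D) → C, PromisePol 𝔻 𝕋 t → ¬ IsOlsak t) :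
    ∃ S : Set A, S.Finite ∧ HasJ 𝔸 S := by
  refine hasJ_of_colouring h (Set.finite_range e) (fun f hf hcol => ?_)
  refine hno (fun u => h (act f (fun k => e (u k)))) ?_ ?_
  · intro i v hv
    exact hh i _ ((hℙ i).preserves hf (fun k a j => e (v k a) j) (fun k => he i _ (hv k)))
  · intro x y
    have h1 := hcol (e x) ⟨x, rfl⟩ (e y) ⟨y, rfl⟩
    have e0 : ∀ a, act f (form a (e x) (e y)) = act f (fun k => e (form a x y k)) := by
      intro a
      congr 1
      funext k
      simp only [form]
      split_ifs <;> rfl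
    rw [e0, e0, e0] at h1
    simp only [form_zero, form_one, form_two] at h1
    exact h1

/-- Hypergraphs: a relation which contains all non-constant tuples over two elements and has a
finite colouring without monochromatic tuples. -/
theorem hasJ_of_hypergraph {J K : Type} [Finite J] [Finite K] {r : ℕ} (hr : 3 ≤ r)
    {R : Set (Fin r → J → A)} (hR : PPDefPow 𝔸 R) {a b : J → A}
    (hab : ∀ s : Fin r → Bool, (∃ i j, s i ≠ s j) → (fun i => if s i then b else a) ∈ R)
    (χ : (J → A) → K) (hχ : ∀ v ∈ R, ∃ i j, χ (v i) ≠ χ (v j)) :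
    ∃ S : Set A, S.Finite ∧ HasJ 𝔸 S := by
  refine hasJ_of_colouring χ (S := {a, b}) (by simp) (fun f hf hcol => ?_)
  obtain ⟨h1, h2⟩ := hcol a (by simp) b (by simp)
  let ρ : Fin r → Fin 3 := fun i => if i.val = 0 then 0 else if i.val = 1 then 1 else 2
  have hmem : (fun i => act f (form (ρ i) a b)) ∈ R := by
    refine hR.preserves hf (fun p i => form (ρ i) a b p) (fun p => ?_)
    refine hab (fun i => row (ρ i) p) ?_
    have h3 : ∀ p : Fin 6, row 0 p ≠ row 1 p ∨ row 0 p ≠ row 2 p := by decide
    rcases h3 p with h3 | h3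
    · exact ⟨⟨0, by omega⟩, ⟨1, by omega⟩, by simpa [ρ] using h3⟩
    · exact ⟨⟨0, by omega⟩, ⟨2, by omega⟩, by simpa [ρ] using h3⟩
  obtain ⟨i, j, hij⟩ := hχ _ hmem
  apply hij
  have h4 : ∀ q : Fin 3, χ (act f (form q a b)) = χ (act f (form 0 a b)) := by
    intro q
    fin_cases q
    · rfl
    · exact h1.symm
    · exact (h1.trans h2).symm
  rw [h4 (ρ i), h4 (ρ j)]

/-- Graphs: a polymorphism with the Olšák identities up to the values of a homomorphism `h`, on a
`d`-clique, `d ≥ 3`, gives a `2d`-clique in the image. -/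
theorem clique_of_olsak {d : ℕ} (hd : 3 ≤ d) {J T : Type} {R : (J → A) → (J → A) → Prop}
    {f : (Fin 6 → A) → A}
    (hpres : ∀ x y : Fin 6 → J → A, (∀ p, R (x p) (y p)) → R (act f x) (act f y))
    (e : Fin d → J → A) (he : ∀ i j, i ≠ j → R (e i) (e j))
    (adj : T → T → Prop) (h : (J → A) → T) (hh : ∀ u v, R u v → adj (h u) (h v))
    (hcol : ∀ x ∈ range e, ∀ y ∈ range e,
      h (act f (form 0 x y)) = h (act f (form 1 x y)) ∧
      h (act f (form 1 x y)) = h (act f (form 2 x y))) :
    ∃ c : Fin (2 * d) → T, ∀ i j, i ≠ j → adj (c i) (c j) := by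
  have : NeZero d := ⟨by omega⟩
  obtain ⟨ε⟩ : Nonempty (ZMod d ≃ Fin d) := by
    rw [← Fintype.card_eq]
    simp [ZMod.card]
  let v : ZMod d → J → A := fun i => e (ε i)
  have hv : ∀ i j, i ≠ j → R (v i) (v j) := fun i j hij => he _ _ (fun h => hij (ε.injective h))
  have hsame : ∀ (q q' : Fin 3) (i : ZMod d), h (act f (form q (v i) (v (i + 1)))) =
      h (act f (form q' (v i) (v (i + 1)))) := by
    intro q q' i
    obtain ⟨h1, h2⟩ := hcol (v i) ⟨_, rfl⟩ (v (i + 1)) ⟨_, rfl⟩
    have h4 : ∀ q : Fin 3, h (act f (form q (v i) (v (i + 1)))) =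
        h (act f (form 0 (v i) (v (i + 1)))) := by
      intro q
      fin_cases q
      · rfl
      · exact h1.symm
      · exact (h1.trans h2).symm
    rw [h4 q, h4 q']
  have hform : ∀ (q : Fin 3) (i : ZMod d) (p : Fin 6), form q (v i) (v (i + 1)) p =
      v (i + if row q p then 1 else 0) := by
    intro q i p
    simp only [form]
    split_ifs
    · rfl
    · rw [add_zero]
  let c' : ZMod d ⊕ ZMod d → T := Sum.elim (fun i => h (act f (form 0 (v i) (v (i + 1)))))
    (fun j => h (act f (fun p => v (zz d p + j))))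
  have hc' : ∀ s t, s ≠ t → adj (c' s) (c' t) := by
    rintro (i | i) (j | j) hst
    · have hij : i ≠ j := fun h => hst (by rw [h])
      refine hh _ _ (hpres _ _ (fun p => ?_))
      rw [hform, hform]
      exact hv _ _ (fun h => hij (add_right_cancel h))
    · show adj (h _) (h _)
      rw [hsame 0 (aa (i - j)) i]
      refine hh _ _ (hpres _ _ (fun p => ?_))
      rw [hform]
      refine hv _ _ (fun h => zz_ne hd (i - j) p ?_)
      rw [eq_comm, sub_add_eq_add_sub, sub_eq_iff_eq_add]
      exact h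
    · show adj (h _) (h _)
      rw [hsame 0 (aa (j - i)) j]
      refine hh _ _ (hpres _ _ (fun p => ?_))
      rw [hform]
      refine hv _ _ (fun h => zz_ne hd (j - i) p ?_)
      rw [eq_comm, sub_add_eq_add_sub, sub_eq_iff_eq_add]
      exact h.symm
    · have hij : i ≠ j := fun h => hst (by rw [h])
      refine hh _ _ (hpres _ _ (fun p => ?_))
      exact hv _ _ (fun h => hij (add_left_cancel h))
  obtain ⟨δ⟩ : Nonempty (Fin (2 * d) ≃ ZMod d ⊕ ZMod d) := by
    rw [← Fintype.card_eq]
    simp [ZMod.card, two_mul]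
  exact ⟨fun i => c' (δ i), fun i j hij => hc' _ _ (fun h => hij (δ.injective h))⟩

/-- Graphs: a graph on a power which contains a `d`-clique, `d ≥ 3`, and has a homomorphism to a
finite graph without `2d`-clique. -/
theorem hasJ_of_graph {d : ℕ} (hd : 3 ≤ d) {J T : Type} [Finite J] [Finite T] {R : Set (Fin 2 → J → A)}
    (hR : PPDefPow 𝔸 R) (e : Fin d → J → A) (he : ∀ i j, i ≠ j → ![e i, e j] ∈ R)
    (adj : T → T → Prop) (h : (J → A) → T) (hh : ∀ u v, ![u, v] ∈ R → adj (h u) (h v))
    (hT : ¬ ∃ c : Fin (2 * d) → T, ∀ i j, i ≠ j → adj (c i) (c j)) :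
    ∃ S : Set A, S.Finite ∧ HasJ 𝔸 S :=
  hasJ_of_colouring h (Set.finite_range e) (fun f hf hcol => by
    refine hT (clique_of_olsak (R := fun u v => ![u, v] ∈ R) hd ?_ e he adj h hh hcol)
    intro x y hxy
    have h1 := hR.preserves hf (fun p => ![x p, y p]) hxy
    convert h1 using 1
    funext i
    fin_cases i <;> rfl)

/-- If `𝔸` pp-constructs `K_3`, there is a finite colouring of a finite power of the domain and a
finite set on which no polymorphism satisfies the Olšák identities up to colours. -/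
theorem PPConstructsK3.no_olsak (h : PPConstructsK3 𝔸) : ∃ (n : ℕ) (χ : (Fin n → A) → Fin 3)
    (S : Set (Fin n → A)), S.Finite ∧ ∀ f : (Fin 6 → A) → A, PolA 𝔸 f → ¬ ∀ x ∈ S, ∀ y ∈ S,
      χ (act f (form 0 x y)) = χ (act f (form 1 x y)) ∧
      χ (act f (form 1 x y)) = χ (act f (form 2 x y)) := by
  obtain ⟨n, E, -, hE, ⟨e, he⟩, ⟨g, hg⟩⟩ := h
  refine ⟨n, g, range e, Set.finite_range _, fun f hf hcol => ?_⟩
  obtain ⟨c, hc⟩ := clique_of_olsak (d := 3) le_rfl (R := fun u v => Sum.elim u v ∈ E) (f := f)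
    (fun x y hxy => by
      have h1 := hf.preserves hE (fun p => Sum.elim (x p) (y p)) hxy
      convert h1 using 1
      funext i
      rcases i with i | i <;> rfl) e he (fun a b => a ≠ b) g hg hcol
  have h1 : Function.Injective c := fun i j hij => by
    by_contra hne
    exact hc i j hne hij
  have h2 := Fintype.card_le_of_injective c h1
  simp at h2

end Pool.Agent.Helper67.LCC
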