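import Pool.Agent.Helper67.LCC.Olsak

/-!
The pseudo-Olšák identities modulo oligomorphic groups of automorphisms.
-/

set_option autoImplicit false

namespace Pool.Agent.Helper67.LCC

open Set Function Pool.Agent.W994.AR Pool.Agent.Q112.BP Pool.Agent.Helper67.BEA
  Pool.Agent.Helper67.TMI

variable {A : Type} {Γ : Subgroup (Equiv.Perm A)}

theorem Oligomorphic.fin (hΓ : Oligomorphic Γ) (J : Type) [Finite J] :
    ∃ F : Set (J → A), F.Finite ∧ ∀ v : J → A, ∃ w ∈ F, ∃ g ∈ Γ, ∀ j, g (v j) = w j := by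
  obtain ⟨k, ⟨e⟩⟩ := Finite.exists_equiv_fin J
  obtain ⟨F, hF, h⟩ := hΓ k
  refine ⟨(fun w j => w (e j)) '' F, hF.image _, ?_⟩
  intro v
  obtain ⟨w, hw, g, hg, h1⟩ := h (fun i => v (e.symm i))
  refine ⟨fun j => w (e j), ⟨w, hw, rfl⟩, g, hg, fun j => ?_⟩
  have := h1 (e j)
  simpa using this

/-- sequences of maps have a convergent subsequence up to the group -/
theorem Oligomorphic.limit (hΓ : Oligomorphic Γ) {I : Type} [Countable I] (φ : ℕ → I → A) :
    ∃ (σ : ℕ → ℕ) (δ : ℕ → Equiv.Perm A) (ψ : I → A), (∀ n, n ≤ σ n) ∧ (∀ n, δ n ∈ Γ) ∧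
      ∀ i, ∃ N, ∀ n, N ≤ n → δ n (φ (σ n) i) = ψ i := by
  classical
  obtain ⟨e, he⟩ := Countable.exists_injective_nat I
  let St : ℕ → Type := fun k => {p : Set ℕ × (I → A) // p.1.Infinite ∧
    ∀ n ∈ p.1, ∃ δ ∈ Γ, ∀ i, e i < k → δ (φ n i) = p.2 i}
  have hstep : ∀ k (s : St k), ∃ s' : St (k + 1), s'.1.1 ⊆ s.1.1 ∧
      ∀ i, e i < k → s'.1.2 i = s.1.2 i := by
    rintro k ⟨⟨M, ψ⟩, hM, h⟩
    have hfinI : Finite {i : I // e i < k + 1} :=
      Finite.of_injective (fun i : {i : I // e i < k + 1} => (⟨e i.1, i.2⟩ : Fin (k + 1)))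
        (fun i j hij => Subtype.ext (he (congrArg Fin.val hij)))
    obtain ⟨F, hF, hrep⟩ := hΓ.fin {i : I // e i < k + 1}
    choose w hw g hg hgw using hrep
    have hF' : Finite F := hF
    obtain ⟨w₀, hw₀⟩ : ∃ w₀ ∈ F, {n ∈ M | w (fun i => φ n i.1) = w₀}.Infinite := by
      by_contra hno
      push Not at hno
      apply hM
      have h1 : M ⊆ ⋃ w₀ ∈ F, {n ∈ M | w (fun i => φ n i.1) = w₀} := by
        intro n hn
        exact Set.mem_biUnion (hw _) ⟨hn, rfl⟩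
      exact Set.Finite.subset (hF.biUnion fun w₀ hw₀ => hno w₀ hw₀) h1
    obtain ⟨hw₀F, hinf⟩ := hw₀
    obtain ⟨n₀, hn₀⟩ := hinf.nonempty
    obtain ⟨δ₀, hδ₀, h₀⟩ := h n₀ hn₀.1
    refine ⟨⟨⟨{n ∈ M | w (fun i => φ n i.1) = w₀}, fun i => δ₀ (φ n₀ i)⟩, hinf, ?_⟩,
      fun n hn => hn.1, fun i hi => h₀ i hi⟩
    intro n hn
    refine ⟨δ₀ * (g (fun i => φ n₀ i.1))⁻¹ * g (fun i => φ n i.1),
      Γ.mul_mem (Γ.mul_mem hδ₀ (Γ.inv_mem (hg _))) (hg _), fun i hi => ?_⟩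
    have h1 := hgw (fun i => φ n i.1) ⟨i, hi⟩
    have h2 := hgw (fun i => φ n₀ i.1) ⟨i, hi⟩
    rw [hn.2] at h1
    rw [hn₀.2] at h2
    show δ₀ ((g (fun i => φ n₀ i.1))⁻¹ (g (fun i => φ n i.1) (φ n i))) = δ₀ (φ n₀ i)
    congr 1
    simp only at h1 h2
    rw [h1, ← h2]
    simp
  choose step hs1 hs2 using hstep
  have hA0 : Nonempty (I → A) := ⟨φ 0⟩
  let s0 : St 0 := ⟨⟨Set.univ, φ 0⟩, Set.infinite_univ, fun n _ => ⟨1, Γ.one_mem, fun i hi =>
    absurd hi (Nat.not_lt_zero _)⟩⟩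
  let seq : ∀ k, St k := fun k => Nat.rec s0 (fun k s => step k s) k
  have hseq : ∀ k, seq (k + 1) = step k (seq k) := fun k => rfl
  have hψ : ∀ k i, e i < k → ∀ m, (seq (k + m)).1.2 i = (seq k).1.2 i := by
    intro k i hi m
    induction m with
    | zero => rfl
    | succ m ih =>
      have h1 := hs2 (k + m) (seq (k + m)) i (by omega)
      rw [← ih, ← h1]
      rfl
  have hσ : ∀ n, ∃ m, m ∈ (seq n).1.1 ∧ n ≤ m := by
    intro n
    obtain ⟨m, hm, hnm⟩ := (seq n).2.1.exists_gt n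
    exact ⟨m, hm, hnm.le⟩
  choose σ hσ hσn using hσ
  choose δ hδ hδψ using fun n => (seq n).2.2 (σ n) (hσ n)
  refine ⟨σ, δ, fun i => (seq (e i + 1)).1.2 i, hσn, hδ, fun i => ⟨e i + 1, fun n hn => ?_⟩⟩
  rw [hδψ n i (by omega)]
  obtain ⟨m, rfl⟩ := Nat.exists_eq_add_of_le hn
  exact hψ (e i + 1) i (Nat.lt_succ_self _) m

variable {ι : Type} {ar : ι → ℕ} {𝔸 : Str ι ar A}

/-- The pseudo-Olšák identities modulo the closure of an oligomorphic group of automorphisms. -/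
theorem pseudo_olsak [Countable A] (hΓ : Oligomorphic Γ) (hΓA : Γ ≤ autGroup 𝔸)
    (h : ∀ (J K : Type) [Finite J] [Finite K] (χ : (J → A) → K) (S : Set (J → A)), S.Finite →
      ∃ f : (Fin 6 → A) → A, PolA 𝔸 f ∧ ∀ x ∈ S, ∀ y ∈ S,
        χ (act f (form 0 x y)) = χ (act f (form 1 x y)) ∧
        χ (act f (form 1 x y)) = χ (act f (form 2 x y))) :
    ∃ (f : (Fin 6 → A) → A) (α : Fin 3 → A → A), PolA 𝔸 f ∧ (∀ a, InClosureOf Γ (α a)) ∧
      ∀ x y : A, ∀ a, α a (f (form a x y)) = α 0 (f (form 0 x y)) := by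
  classical
  obtain ⟨e, he⟩ := Countable.exists_injective_nat A
  -- finite sets
  have hfin : ∀ n : ℕ, ∃ (f : (Fin 6 → A) → A) (g : Fin 3 → Equiv.Perm A), PolA 𝔸 f ∧
      (∀ a, g a ∈ Γ) ∧ ∀ x y : A, e x < n → e y < n →
        ∀ a, g a (f (form a x y)) = f (form 0 x y) := by
    intro n
    have hfinI : Finite {x : A // e x < n} :=
      Finite.of_injective (fun i : {i : A // e i < n} => (⟨e i.1, i.2⟩ : Fin n))
        (fun i j hij => Subtype.ext (he (congrArg Fin.val hij)))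
    let J : Type := {x : A // e x < n} × {x : A // e x < n}
    obtain ⟨F, hF, hrep⟩ := hΓ.fin J
    choose w hw g hg hgw using hrep
    have hF' : Finite F := hF
    let X : J → A := fun p => p.1.1
    let Y : J → A := fun p => p.2.1
    obtain ⟨f, hf, hfc⟩ := h J F (fun v => ⟨w v, hw v⟩) {X, Y} (by simp)
    obtain ⟨h1, h2⟩ := hfc X (by simp) Y (by simp)
    have hact : ∀ a (p : J), act f (form a X Y) p = f (form a p.1.1 p.2.1) := by
      intro a p
      show f _ = f _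
      congr 1
      funext k
      simp only [form]
      split_ifs <;> rfl
    have h3 : ∀ a, w (act f (form a X Y)) = w (act f (form 0 X Y)) := by
      intro a
      fin_cases a
      · rfl
      · exact (congrArg Subtype.val h1).symm
      · exact (congrArg Subtype.val (h1.trans h2)).symm
    refine ⟨f, fun a => (g (act f (form 0 X Y)))⁻¹ * g (act f (form a X Y)), hf,
      fun a => Γ.mul_mem (Γ.inv_mem (hg _)) (hg _), fun x y hx hy a => ?_⟩
    have h4 := hgw (act f (form a X Y)) (⟨x, hx⟩, ⟨y, hy⟩)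
    have h5 := hgw (act f (form 0 X Y)) (⟨x, hx⟩, ⟨y, hy⟩)
    rw [hact] at h4 h5
    rw [h3 a] at h4
    show (g (act f (form 0 X Y)))⁻¹ (g (act f (form a X Y)) (f (form a x y))) = _
    simp only at h4 h5
    rw [h4, ← h5]
    simp
  choose f g hf hg hfg using hfin
  -- the limit of the polymorphisms
  obtain ⟨σ, δ, F, hσ, hδ, hF⟩ := hΓ.limit f
  have hev : ∀ T : Set (Fin 6 → A), T.Finite → ∃ N, ∀ n, N ≤ n → ∀ t ∈ T, δ n (f (σ n) t) = F t := by
    intro T hT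
    choose N hN using hF
    obtain ⟨M, hM⟩ := (hT.image N).bddAbove
    exact ⟨M, fun n hn t ht => hN t n ((hM ⟨t, ht, rfl⟩).trans hn)⟩
  have hFpol : PolA 𝔸 F := by
    intro i v hv
    obtain ⟨N, hN⟩ := hev (range fun j => fun k => v k j) (Set.finite_range _)
    have h1 := (hΓA (hδ N) i _).1 (hf (σ N) i v hv)
    have h2 : (fun j => (δ N) (f (σ N) (fun k => v k j))) = fun j => F (fun k => v k j) := by
      funext j
      exact hN N le_rfl _ ⟨j, rfl⟩
    rw [← h2]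
    exact h1
  have hloc : ∀ n : ℕ, ∃ g : Fin 3 → Equiv.Perm A, (∀ a, g a ∈ Γ) ∧ ∀ x y : A, e x < n → e y < n →
        ∀ a, g a (F (form a x y)) = F (form 0 x y) := by
    intro n
    have hfinI : {x : A | e x < n}.Finite :=
      (Set.finite_lt_nat n).preimage he.injOn
    obtain ⟨N, hN⟩ := hev ((fun p : Fin 3 × A × A => form p.1 p.2.1 p.2.2) ''
      (Set.univ ×ˢ ({x : A | e x < n} ×ˢ {x : A | e x < n})))
      (Set.Finite.image _ (Set.finite_univ.prod (hfinI.prod hfinI)))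
    let M := max N n
    have hM1 : N ≤ M := le_max_left _ _
    have hM2 : n ≤ σ M := (le_max_right _ _).trans (hσ M)
    refine ⟨fun a => δ M * g (σ M) a * (δ M)⁻¹, fun a => Γ.mul_mem (Γ.mul_mem (hδ M) (hg _ _))
      (Γ.inv_mem (hδ M)), fun x y hx hy a => ?_⟩
    have h1 := hN M hM1 (form a x y) ⟨(a, x, y), ⟨trivial, hx, hy⟩, rfl⟩
    have h2 := hN M hM1 (form 0 x y) ⟨(0, x, y), ⟨trivial, hx, hy⟩, rfl⟩
    rw [← h1, ← h2]
    have h3 : (δ M)⁻¹ (δ M (f (σ M) (form a x y))) = f (σ M) (form a x y) := by simp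
    show δ M (g (σ M) a ((δ M)⁻¹ (δ M (f (σ M) (form a x y))))) = _
    rw [h3, hfg (σ M) x y (by omega) (by omega) a]
  choose g' hg' hFg using hloc
  obtain ⟨τ, ε, ψ, hτ, hε, hψ⟩ := hΓ.limit (I := Fin 3 × A) (fun n p => g' n p.1 p.2)
  refine ⟨F, fun a x => ψ (a, x), hFpol, fun a S hS => ?_, fun x y a => ?_⟩
  · choose N hN using hψ
    obtain ⟨M, hM⟩ := (hS.image fun x => N (a, x)).bddAbove
    exact ⟨ε M * g' (τ M) a, Γ.mul_mem (hε M) (hg' _ _), fun x hx => hN (a, x) M (hM ⟨x, hx, rfl⟩)⟩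
  · obtain ⟨N1, hN1⟩ := hψ (a, F (form a x y))
    obtain ⟨N2, hN2⟩ := hψ (0, F (form 0 x y))
    let M := max (max N1 N2) (max (e x + 1) (e y + 1))
    have hM1 : N1 ≤ M := (le_max_left _ _).trans (le_max_left _ _)
    have hM2 : N2 ≤ M := (le_max_right _ _).trans (le_max_left _ _)
    have hM3 : e x < τ M := lt_of_lt_of_le (Nat.lt_succ_self _)
      (((le_max_left _ _).trans (le_max_right _ _)).trans (hτ M))
    have hM4 : e y < τ M := lt_of_lt_of_le (Nat.lt_succ_self _)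
      (((le_max_right _ _).trans (le_max_right _ _)).trans (hτ M))
    have h1 := hN1 M hM1
    have h2 := hN2 M hM2
    simp only at h1 h2 ⊢
    rw [← h1, ← h2, hFg (τ M) x y hM3 hM4 a, hFg (τ M) x y hM3 hM4 0]

end Pool.Agent.Helper67.LCC
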